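import Pool.Agent.Helper74.CL.Small
import Pool.Agent.Helper74.CL.Nec3

/-!
The admissible pairs `(k, m)` with exponent `m = 1, 2, 3, 4, 6` are exactly those with `m < 2 k`.
-/

set_option autoImplicit false

namespace Pool.Agent.Kept.MP_cd7e06_al.SmallExponents

theorem result (k m : ℕ) (hk : 1 ≤ k) (hm : m = 1 ∨ m = 2 ∨ m = 3 ∨ m = 4 ∨ m = 6) :
    H74CL.Adm k m ↔ m < 2 * k :=
  ⟨H74CL.adm_nec hk, H74CL.adm_small k m hm⟩

end Pool.Agent.Kept.MP_cd7e06_al.SmallExponents
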